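import Mathlib
import Pool.Agent.Q112.GroupLike

/-!
# Finite-dimensional Hopf algebras with infinitely many two-sided group-like projections
-/

namespace Pool.Agent.Results.MP_2a0e18_al.InfinitelyManyProjections

open Pool.Agent.Q112.GroupLike

/-- Over every infinite field of positive characteristic there is a finite-dimensional Hopf
algebra with infinitely many two-sided group-like projections. -/
theorem result (k : Type) [Field k] [Infinite k] (p : ℕ) [Fact p.Prime] [CharP k p] :
    ∃ (A : Type) (_ : Ring A) (_ : HopfAlgebra k A), FiniteDimensional k A ∧
      {P : A | IsTwoSidedGLP k P}.Infinite :=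
  exists_infinite k p

end Pool.Agent.Results.MP_2a0e18_al.InfinitelyManyProjections
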